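import Pool.Agent.helper4.EC.Spec

set_option autoImplicit false

namespace Pool.Agent.helper4.EC

open Finset

universe u

theorem W2 (h1 : W1_stmt.{u}) : W2_stmt.{u} := by
  intro V _ G hG k w hw
  have hinj : Function.Injective (fun t : Fin (k + 1) => w t.1) := by
    have key : ∀ i j : ℕ, i < j → j ≤ k → w i ≠ w j := by
      intro i j hij hj h
      rcases Nat.lt_or_ge (i + 1) j with h2 | h2
      · exact (h1 V G hG k w hw i j (by omega) hj).1 h
      · have hji : j = i + 1 := by omega
        subst hji
        have ha := hw.1 i (by omega)
        rw [h] at ha
        exact G.loopless.irrefl _ ha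
    intro a b hab
    have hab' : w a.1 = w b.1 := hab
    rcases lt_trichotomy a.1 b.1 with h | h | h
    · exact absurd hab' (key _ _ h (by omega))
    · exact Fin.ext h
    · exact absurd hab'.symm (key _ _ h (by omega))
  have := Fintype.card_le_of_injective _ hinj
  rw [Fintype.card_fin] at this
  omega

end Pool.Agent.helper4.EC
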